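import Pool.Agent.helper60.MW.Spec

set_option autoImplicit false

namespace Pool.Agent.MW

open MeasureTheory Set Pool.Agent.helper17.Worm

theorem CIR : CIR_stmt := by
  intro F ℓ R r z y hF hz hy hR hr hrR
  obtain ⟨t0, ht0, rfl⟩ := hz
  obtain ⟨t1, ht1, rfl⟩ := hy
  have hc : ContinuousOn (fun t => ‖F t - F t0‖) (Icc 0 ℓ) :=
    ((hF.continuous.sub continuous_const).norm).continuousOn
  have h := isPreconnected_Icc.intermediate_value ht0 ht1 hc
  have hm : r ∈ Icc (‖F t0 - F t0‖) (‖F t1 - F t0‖) := by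
    rw [sub_self, norm_zero]
    exact ⟨hr, hrR.trans hR⟩
  obtain ⟨t, ht, htr⟩ := h hm
  exact ⟨F t, ⟨t, ht, rfl⟩, htr⟩

end Pool.Agent.MW
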